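import Pool.Agent.BEG.Stmts
import Pool.Agent.Helper64_BEL.EMP
import Pool.Agent.Helper33_BEL.SOB

set_option autoImplicit false

/-! Row UNQ of squad BEG (MP_be01ff_an): uniqueness for the Dirichlet problem. -/

namespace Pool.Agent.BEG.H4

open Set Filter Topology MeasureTheory
open scoped InnerProductSpace ENNReal
open Pool.Agent.BE01 Pool.Agent.BEL Pool.Agent.BEF Pool.Agent.BEN Pool.Agent.BEH Pool.Agent.BEG

/-- **UNQ**. -/
theorem unq : UnqStmt := by
  intro d Ω u u' h F F' hd hΩ hu hu' hW hW'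
  obtain ⟨ι, -, hG⟩ := Pool.Agent.BEL.H64.emp Pool.Agent.BEL.H33.sob d Ω hd hΩ
  obtain ⟨hF, eu⟩ := (hG u F).1 hu
  obtain ⟨hF', eu'⟩ := (hG u' F').1 hu'
  have hD : F - F' ∈ VV Ω := (VV Ω).sub_mem hF hF'
  have h0 : F - F' ∈ (Submodule.span ℝ {G : Lp (En d) 2 (mu Ω) |
      ∃ ψ, Tst Ω ψ ∧ G =ᵐ[mu Ω] gradient ψ})ᗮ := by
    rw [Submodule.mem_orthogonal]
    intro G hG
    refine Submodule.span_induction ?_ ?_ ?_ ?_ hG
    · rintro G ⟨ψ, hψ, hGψ⟩
      have e1 : ∀ F : Lp (En d) 2 (mu Ω), ⟪F, G⟫_ℝ =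
          ∫ x, ⟪F x, gradient ψ x⟫_ℝ ∂(mu Ω) := by
        intro F
        rw [L2.inner_def]
        exact integral_congr_ae (hGψ.mono fun x hx => by simp only [hx])
      rw [real_inner_comm, inner_sub_left, e1, e1, hW ψ hψ, hW' ψ hψ, sub_self]
    · exact inner_zero_left _
    · intro x y _ _ hx hy
      rw [inner_add_left, hx, hy, add_zero]
    · intro c x _ hx
      rw [inner_smul_left, hx, mul_zero]
  have h1 : F - F' = 0 := by
    rw [← Submodule.orthogonal_closure] at h0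
    have h2 := (Submodule.mem_orthogonal _ _).1 h0 (F - F') hD
    exact inner_self_eq_zero.1 h2
  have h3 : F = F' := sub_eq_zero.1 h1
  subst h3
  rw [eu, eu']

end Pool.Agent.BEG.H4
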